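import Mathlib
import Pool.Agent.Helper923.PNT
import Pool.Agent.H435R2.GreenCore

/-!
Covering integers by one residue class per prime near `N^α`: the bound
`S_a(N) ≥ N^{min(1 - α/3, 3/2 - α) - ε}` for every `α ∈ (1/2,1)`.
-/

namespace Pool.Agent.Results.MP_bb5cc8_nt.HairbrushExponent

open Finset Filter Topology

/-- The primes `p` with `N^α ≤ p < 2 N^α`. -/
noncomputable def primesNear (α : ℝ) (N : ℕ) : Finset ℕ :=
  (Finset.range ⌈2 * (N:ℝ) ^ α⌉₊).filter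
    (fun p => p.Prime ∧ (N:ℝ) ^ α ≤ (p:ℝ) ∧ (p:ℝ) < 2 * (N:ℝ) ^ α)

/-- The integers `n ∈ {1,…,N}` with `n ≡ a(p) (mod p)` for some prime `p` near `N^α`. -/
noncomputable def covered (α : ℝ) (N : ℕ) (a : ℕ → ℤ) : Finset ℕ :=
  (Finset.Icc 1 N).filter (fun n => ∃ p ∈ primesNear α N, (n:ℤ) ≡ a p [ZMOD (p:ℤ)])

lemma mem_primesNear {α : ℝ} {N p : ℕ} : p ∈ primesNear α N ↔
    p.Prime ∧ (N:ℝ) ^ α ≤ (p:ℝ) ∧ (p:ℝ) < 2 * (N:ℝ) ^ α := by
  unfold primesNear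
  rw [mem_filter, mem_range, Nat.lt_ceil]
  tauto

/-- lower bound for the number of primes in `[x, 2x)` -/
lemma count_primes : ∀ᶠ x : ℝ in atTop, x / 4 ≤
    (#((Finset.range ⌈2 * x⌉₊).filter (fun p : ℕ => p.Prime ∧ x ≤ (p:ℝ) ∧ (p:ℝ) < 2 * x)) : ℝ)
      * Real.log (2 * x) := by
  have h := Pool.Agent.Helper923.PNT.theta_div_tendsto
  have h1 : ∀ᶠ x : ℝ in atTop, Chebyshev.theta x / x < 11 / 10 :=
    h.eventually (gt_mem_nhds (by norm_num))
  have h2 : ∀ᶠ x : ℝ in atTop, 9 / 10 < Chebyshev.theta x / x :=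
    h.eventually (lt_mem_nhds (by norm_num))
  have h3 : ∀ᶠ x : ℝ in atTop, 9 / 10 < Chebyshev.theta ((3/2) * x) / ((3/2) * x) :=
    (tendsto_id.const_mul_atTop (by norm_num : (0:ℝ) < 3/2)).eventually h2
  filter_upwards [h1, h3, eventually_ge_atTop 1] with x hx1 hx3 hx
  have hx0 : 0 < x := by linarith
  rw [div_lt_iff₀ hx0] at hx1
  rw [lt_div_iff₀ (by positivity)] at hx3
  set T := (Finset.range ⌈2 * x⌉₊).filter (fun p : ℕ => p.Prime ∧ x ≤ (p:ℝ) ∧ (p:ℝ) < 2 * x) with hT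
  have hsub : (Ioc 0 ⌊(3/2) * x⌋₊).filter Nat.Prime ⊆
      (Ioc 0 ⌊x⌋₊).filter Nat.Prime ∪ T := by
    intro p hp
    rw [mem_filter, mem_Ioc] at hp
    obtain ⟨⟨hp0, hp1⟩, hp2⟩ := hp
    rw [Nat.le_floor_iff (by positivity)] at hp1
    rw [mem_union]
    by_cases hc : p ≤ ⌊x⌋₊
    · left
      rw [mem_filter, mem_Ioc]
      exact ⟨⟨hp0, hc⟩, hp2⟩
    · right
      push Not at hc
      have hc' : x < p := (Nat.floor_lt hx0.le).1 hc
      rw [hT, mem_filter, mem_range, Nat.lt_ceil]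
      exact ⟨by linarith, hp2, hc'.le, by linarith⟩
  have hlog : ∀ p ∈ T, Real.log (p:ℝ) ≤ Real.log (2 * x) := by
    intro p hp
    rw [hT, mem_filter] at hp
    exact Real.log_le_log (by exact_mod_cast hp.2.1.pos) hp.2.2.2.le
  have hsum : Chebyshev.theta ((3/2) * x) ≤ Chebyshev.theta x + ∑ p ∈ T, Real.log (p:ℝ) := by
    unfold Chebyshev.theta
    calc ∑ p ∈ (Ioc 0 ⌊(3/2) * x⌋₊).filter Nat.Prime, Real.log (p:ℝ)
        ≤ ∑ p ∈ (Ioc 0 ⌊x⌋₊).filter Nat.Prime ∪ T, Real.log (p:ℝ) :=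
          Finset.sum_le_sum_of_subset_of_nonneg hsub (fun p _ _ => Real.log_natCast_nonneg p)
      _ ≤ _ := by
          have e := Finset.sum_union_inter (s₁ := (Ioc 0 ⌊x⌋₊).filter Nat.Prime) (s₂ := T)
            (f := fun p : ℕ => Real.log (p:ℝ))
          have e2 : 0 ≤ ∑ p ∈ (Ioc 0 ⌊x⌋₊).filter Nat.Prime ∩ T, Real.log (p:ℝ) :=
            Finset.sum_nonneg (fun p _ => Real.log_natCast_nonneg p)
          linarith
  have hT2 : ∑ p ∈ T, Real.log (p:ℝ) ≤ #T * Real.log (2 * x) := by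
    calc ∑ p ∈ T, Real.log (p:ℝ) ≤ ∑ _p ∈ T, Real.log (2 * x) := Finset.sum_le_sum hlog
      _ = _ := by rw [Finset.sum_const, nsmul_eq_mul]
  linarith

/-- number of elements of a class modulo `r` in `[1,N]` -/
lemma class_count (N : ℕ) (r : ℕ) (hr : 0 < r) (v : ℤ) :
    (N:ℝ) / r - 1 ≤ (#((Icc (1:ℤ) N).filter (fun n => (r:ℤ) ∣ n - v)) : ℝ) := by
  have e : (Icc (1:ℤ) N).filter (fun n => (r:ℤ) ∣ n - v) =
      (Ioc (0:ℤ) N).filter (fun n => n ≡ v [ZMOD (r:ℤ)]) := by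
    ext n
    rw [mem_filter, mem_filter, mem_Icc, mem_Ioc, Int.modEq_comm, Int.modEq_iff_dvd]
    constructor
    · rintro ⟨⟨h1, h2⟩, h3⟩; exact ⟨⟨by omega, h2⟩, h3⟩
    · rintro ⟨⟨h1, h2⟩, h3⟩; exact ⟨⟨by omega, h2⟩, h3⟩
  have hcard := Int.Ioc_filter_modEq_card (0:ℤ) (N:ℤ) (r := (r:ℤ)) (by exact_mod_cast hr) v
  rw [e]
  have h2 : (#((Ioc (0:ℤ) N).filter (fun n => n ≡ v [ZMOD (r:ℤ)])) : ℤ) ≥
      ⌊(((N:ℤ):ℚ) - v) / ((r:ℤ):ℚ)⌋ - ⌊(((0:ℤ):ℚ) - v) / ((r:ℤ):ℚ)⌋ := by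
    rw [hcard]; exact le_max_left _ _
  have hr' : (0:ℚ) < ((r:ℤ):ℚ) := by exact_mod_cast hr
  have f1 := Int.lt_floor_add_one ((((N:ℤ):ℚ) - v) / ((r:ℤ):ℚ))
  have f2 := Int.floor_le ((((0:ℤ):ℚ) - v) / ((r:ℤ):ℚ))
  have h3 : ((#((Ioc (0:ℤ) N).filter (fun n => n ≡ v [ZMOD (r:ℤ)])) : ℤ) : ℚ) ≥
      (⌊(((N:ℤ):ℚ) - v) / ((r:ℤ):ℚ)⌋ : ℚ) - (⌊(((0:ℤ):ℚ) - v) / ((r:ℤ):ℚ)⌋ : ℚ) := by
    exact_mod_cast h2
  have h4 : ((N:ℚ)) / r - 1 ≤ (#((Ioc (0:ℤ) N).filter (fun n => n ≡ v [ZMOD (r:ℤ)])) : ℚ) := by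
    have e1 : (((N:ℤ):ℚ) - v) / ((r:ℤ):ℚ) - (((0:ℤ):ℚ) - v) / ((r:ℤ):ℚ) = (N:ℚ) / r := by
      push_cast
      rw [← sub_div]
      ring_nf
    push_cast at h3 f1 f2 e1 ⊢
    linarith
  have h5 : (((N:ℚ) / r - 1 : ℚ) : ℝ) ≤
      ((#((Ioc (0:ℤ) N).filter (fun n => n ≡ v [ZMOD (r:ℤ)])) : ℚ) : ℝ) := Rat.cast_le.2 h4
  push_cast at h5
  exact h5

lemma card_covered (α : ℝ) (N : ℕ) (a : ℕ → ℤ) :
    #(covered α N a) = #(Pool.Agent.H435R2.GreenCore.cov N (primesNear α N) a) := by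
  refine Finset.card_bij (fun n _ => (n:ℤ)) ?_ ?_ ?_
  · intro n hn
    unfold covered at hn
    rw [mem_filter, mem_Icc] at hn
    obtain ⟨⟨h1, h2⟩, p, hp, h3⟩ := hn
    unfold Pool.Agent.H435R2.GreenCore.cov Pool.Agent.H435R2.GreenCore.line
    rw [mem_biUnion]
    refine ⟨p, hp, ?_⟩
    rw [mem_filter, mem_Icc]
    refine ⟨⟨by exact_mod_cast h1, by exact_mod_cast h2⟩, ?_⟩
    exact (Int.modEq_iff_dvd.1 h3.symm)
  · intro n _ m _ h
    exact_mod_cast h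
  · intro b hb
    unfold Pool.Agent.H435R2.GreenCore.cov Pool.Agent.H435R2.GreenCore.line at hb
    rw [mem_biUnion] at hb
    obtain ⟨p, hp, hb⟩ := hb
    rw [mem_filter, mem_Icc] at hb
    obtain ⟨⟨h1, h2⟩, h3⟩ := hb
    lift b to ℕ using (by omega)
    refine ⟨b, ?_, rfl⟩
    unfold covered
    rw [mem_filter, mem_Icc]
    exact ⟨⟨by exact_mod_cast h1, by exact_mod_cast h2⟩, p, hp, (Int.modEq_iff_dvd.2 h3).symm⟩

theorem result (α : ℝ) (hα : 1 / 2 < α) (hα1 : α < 1) (ε : ℝ) (hε : 0 < ε) :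
    ∃ N₀ : ℕ, ∀ N : ℕ, N₀ ≤ N → ∀ a : ℕ → ℤ,
      (N:ℝ) ^ (min (1 - α / 3) (3 / 2 - α) - ε) ≤ (#(covered α N a) : ℝ) := by
  have hnat : Tendsto (fun N : ℕ => (N:ℝ)) atTop atTop := tendsto_natCast_atTop_atTop
  have hpow : ∀ s : ℝ, 0 < s → Tendsto (fun N : ℕ => (N:ℝ) ^ s) atTop atTop := fun s hs =>
    (tendsto_rpow_atTop hs).comp hnat
  -- number of primes
  have hM : ∀ᶠ N : ℕ in atTop, (N:ℝ) ^ (α - ε / 2) ≤ (#(primesNear α N) : ℝ) := by
    have h1 := (hpow α (by linarith)).eventually count_primes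
    have hlog : ∀ᶠ x : ℝ in atTop, Real.log (2 * x) ≤ (1/4) * x ^ (ε / (2 * α)) := by
      have hl : (fun x : ℝ => Real.log (2 * x)) =o[atTop] (fun x : ℝ => x ^ (ε / (2 * α))) := by
        have hpos : 0 < ε / (2 * α) := by positivity
        have e1 : (fun x : ℝ => Real.log (2 * x)) =ᶠ[atTop] fun x => Real.log 2 + Real.log x := by
          filter_upwards [eventually_gt_atTop 0] with x hx
          rw [Real.log_mul (by norm_num) hx.ne']
        refine Asymptotics.IsLittleO.congr' ?_ e1.symm (EventuallyEq.refl _ _)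
        refine Asymptotics.IsLittleO.add ?_ (isLittleO_log_rpow_atTop hpos)
        exact (Asymptotics.isLittleO_const_left.2 (Or.inr
          (tendsto_norm_atTop_atTop.comp (tendsto_rpow_atTop hpos))))
      have := hl.bound (show (0:ℝ) < 1/4 by norm_num)
      filter_upwards [this, eventually_ge_atTop 1] with x hx hx1
      rw [Real.norm_of_nonneg (Real.log_nonneg (by linarith)),
        Real.norm_of_nonneg (Real.rpow_nonneg (by linarith) _)] at hx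
      exact hx
    have h2 := (hpow α (by linarith)).eventually hlog
    filter_upwards [h1, h2, eventually_ge_atTop 2] with N hN1 hN2 hN3
    have hN0 : (0:ℝ) < N := by positivity
    have hN1' : (1:ℝ) ≤ N := by exact_mod_cast (by omega : 1 ≤ N)
    have e1 : ((N:ℝ) ^ α) ^ (ε / (2 * α)) = (N:ℝ) ^ (ε / 2) := by
      rw [← Real.rpow_mul hN0.le]
      congr 1
      field_simp
    rw [e1] at hN2
    have hL0 : 0 < Real.log (2 * (N:ℝ) ^ α) := by
      apply Real.log_pos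
      have : 1 ≤ (N:ℝ) ^ α := Real.one_le_rpow hN1' (by linarith)
      linarith
    have hP : (0:ℝ) < (N:ℝ) ^ α := Real.rpow_pos_of_pos hN0 _
    have hE : (0:ℝ) < (N:ℝ) ^ (ε / 2) := Real.rpow_pos_of_pos hN0 _
    have h3 : (N:ℝ) ^ α / 4 ≤ (#(primesNear α N) : ℝ) * ((1/4) * (N:ℝ) ^ (ε / 2)) := by
      refine hN1.trans ?_
      unfold primesNear
      gcongr
    rw [Real.rpow_sub hN0, div_le_iff₀ hE]
    linarith
  have hA := (hpow (1 - α) (by linarith)).eventually (eventually_ge_atTop 64)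
  have hE := (hpow ε hε).eventually (eventually_ge_atTop 20000)
  have hP2 := (hpow α (by linarith)).eventually (eventually_gt_atTop 2)
  obtain ⟨N₀, hN₀⟩ := eventually_atTop.1 (hM.and (hA.and (hE.and (hP2.and (eventually_ge_atTop 2)))))
  refine ⟨N₀, fun N hN a => ?_⟩
  obtain ⟨hM, hA, hE, hP2, hN2⟩ := hN₀ N hN
  have hN0 : (0:ℝ) < N := by positivity
  have hN1 : (1:ℝ) ≤ N := by exact_mod_cast (by omega : 1 ≤ N)
  set Q := primesNear α N with hQ
  set x := (N:ℝ) ^ α with hx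
  set y := (N:ℝ) ^ (1 - α) with hy
  have hxy : x * y = N := by
    rw [hx, hy, ← Real.rpow_add hN0]; simp
  have hx0 : 0 < x := Real.rpow_pos_of_pos hN0 _
  have hy0 : 0 < y := Real.rpow_pos_of_pos hN0 _
  set A := ⌊y / 4⌋₊ with hAdef
  set B := ⌊y / 16⌋₊ with hBdef
  have hAr : y / 8 ≤ A := by
    have := Nat.lt_floor_add_one (y / 4)
    rw [← hAdef] at this
    linarith
  have hBr : y / 32 ≤ B := by
    have := Nat.lt_floor_add_one (y / 16)
    rw [← hBdef] at this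
    linarith
  have hA2 : (A:ℝ) ≤ y / 4 := Nat.floor_le (by positivity)
  have hB2 : (B:ℝ) ≤ y / 16 := Nat.floor_le (by positivity)
  have hNp : ∀ p ∈ Q, y / 2 ≤ (N:ℝ) / p := by
    intro p hp
    rw [hQ, mem_primesNear] at hp
    have hp0 : (0:ℝ) < p := by exact_mod_cast hp.1.pos
    rw [le_div_iff₀ hp0]
    nlinarith [hp.2.2, hxy]
  have main := Pool.Agent.H435R2.GreenCore.main N Q a A B
    (fun p hp => by rw [hQ, mem_primesNear] at hp; exact hp.1)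
    (fun p hp => by
      rw [hQ, mem_primesNear] at hp
      intro h
      rw [h] at hp
      have := hp.2.1
      push_cast at this
      linarith)
    (fun p hp q hq _ => by
      rw [hQ, mem_primesNear] at hp hq
      have h1 : (N:ℝ) ≤ (p:ℝ) * q := by
        calc (N:ℝ) = (N:ℝ) ^ (1:ℝ) := (Real.rpow_one _).symm
          _ ≤ (N:ℝ) ^ (α + α) := Real.rpow_le_rpow_of_exponent_le hN1 (by linarith)
          _ = x * x := Real.rpow_add hN0 _ _
          _ ≤ (p:ℝ) * q := by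
            have := hp.2.1
            have := hq.2.1
            gcongr
      exact_mod_cast h1)
    (fun p hp => by
      have h1 := hNp p hp
      have hp' := hp
      rw [hQ, mem_primesNear] at hp'
      have h2 := class_count N p hp'.1.pos (a p)
      have h3 : (A:ℝ) ≤ (#(Pool.Agent.H435R2.GreenCore.line N a p) : ℝ) := by
        unfold Pool.Agent.H435R2.GreenCore.line
        refine le_trans ?_ h2
        linarith
      exact_mod_cast h3)
    (fun q hq z hz => by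
      have h1 := hNp q hq
      have hq' := hq
      rw [hQ, mem_primesNear] at hq'
      have h2 := class_count N (2 * q) (by have := hq'.1.pos; omega) z
      have h3 : (#((Icc (1:ℤ) N).filter (fun n => ((2 * q : ℕ):ℤ) ∣ n - z)) : ℝ) ≤
          (#((Icc (1:ℤ) N).filter (fun w => w ≠ z ∧ (2 * q : ℤ) ∣ w - z)) : ℝ) + 1 := by
        have hs : (Icc (1:ℤ) N).filter (fun n => ((2 * q : ℕ):ℤ) ∣ n - z) ⊆
            (Icc (1:ℤ) N).filter (fun w => w ≠ z ∧ (2 * q : ℤ) ∣ w - z) ∪ {z} := by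
          intro w hw
          rw [mem_filter] at hw
          rw [mem_union, mem_filter, mem_singleton]
          by_cases hwz : w = z
          · right; exact hwz
          · left
            refine ⟨hw.1, hwz, ?_⟩
            have := hw.2
            push_cast at this
            exact this
        have h4 := (card_le_card hs).trans (card_union_le _ _)
        rw [card_singleton] at h4
        exact_mod_cast h4
      have e1 : (N:ℝ) / ((2 * q : ℕ) : ℝ) = (N:ℝ) / q / 2 := by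
        push_cast
        rw [div_div, mul_comm]
      rw [e1] at h2
      have h5 : (B:ℝ) ≤ (#((Icc (1:ℤ) N).filter (fun w => w ≠ z ∧ (2 * q : ℤ) ∣ w - z)) : ℝ) := by
        linarith
      exact_mod_cast h5)
  rw [← card_covered] at main
  set n := #(covered α N a) with hn
  by_contra hcon
  push Not at hcon
  set e := min (1 - α / 3) (3 / 2 - α) - ε with he
  have hmain : (B:ℝ) * ((#Q:ℝ) * A) ^ 2 ≤ (n:ℝ) ^ 2 * (n + #Q) := by exact_mod_cast main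
  have hn0 : (0:ℝ) ≤ n := Nat.cast_nonneg _
  -- upper bound for the number of primes
  have hQup : (#Q:ℝ) ≤ 3 * x := by
    have h1 : #Q ≤ ⌈2 * x⌉₊ := by
      rw [hQ]
      unfold primesNear
      exact (card_filter_le _ _).trans (by rw [card_range])
    have h2 : ((⌈2 * x⌉₊ : ℕ):ℝ) < 2 * x + 1 := Nat.ceil_lt_add_one (by positivity)
    have h3 : (#Q:ℝ) ≤ (⌈2 * x⌉₊ : ℕ) := by exact_mod_cast h1
    linarith
  -- lower bound for the left side
  have hlow : (N:ℝ) ^ (3 - α - ε) / 2048 ≤ (B:ℝ) * ((#Q:ℝ) * A) ^ 2 := by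
    have e1 : (N:ℝ) ^ (3 - α - ε) = y ^ 3 * ((N:ℝ) ^ (α - ε / 2)) ^ 2 := by
      rw [hy, ← Real.rpow_natCast, ← Real.rpow_natCast, ← Real.rpow_mul hN0.le,
        ← Real.rpow_mul hN0.le, ← Real.rpow_add hN0]
      congr 1
      push_cast
      ring
    rw [e1]
    have h1 : (0:ℝ) ≤ (N:ℝ) ^ (α - ε / 2) := (Real.rpow_pos_of_pos hN0 _).le
    calc y ^ 3 * ((N:ℝ) ^ (α - ε / 2)) ^ 2 / 2048 = (y / 32) * ((N:ℝ) ^ (α - ε / 2) * (y / 8)) ^ 2 := by
          ring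
      _ ≤ (B:ℝ) * ((#Q:ℝ) * A) ^ 2 := by gcongr
  -- upper bound for the right side
  have hne : (n:ℝ) ≤ (N:ℝ) ^ e := hcon.le
  have he0 : (0:ℝ) < (N:ℝ) ^ e := Real.rpow_pos_of_pos hN0 _
  have hup : (n:ℝ) ^ 2 * (n + #Q) ≤ 4 * (N:ℝ) ^ (3 - α - 2 * ε) := by
    have u1 : ((N:ℝ) ^ e) ^ 2 * (N:ℝ) ^ e ≤ (N:ℝ) ^ (3 - α - 2 * ε) := by
      rw [← Real.rpow_natCast, ← Real.rpow_mul hN0.le, ← Real.rpow_add hN0]
      apply Real.rpow_le_rpow_of_exponent_le hN1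
      push_cast
      have := min_le_left (1 - α / 3) (3 / 2 - α)
      linarith
    have u2 : ((N:ℝ) ^ e) ^ 2 * x ≤ (N:ℝ) ^ (3 - α - 2 * ε) := by
      rw [hx, ← Real.rpow_natCast, ← Real.rpow_mul hN0.le, ← Real.rpow_add hN0]
      apply Real.rpow_le_rpow_of_exponent_le hN1
      push_cast
      have := min_le_right (1 - α / 3) (3 / 2 - α)
      linarith
    calc (n:ℝ) ^ 2 * (n + #Q) ≤ ((N:ℝ) ^ e) ^ 2 * ((N:ℝ) ^ e + 3 * x) := by gcongr
      _ = ((N:ℝ) ^ e) ^ 2 * (N:ℝ) ^ e + 3 * (((N:ℝ) ^ e) ^ 2 * x) := by ring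
      _ ≤ 4 * (N:ℝ) ^ (3 - α - 2 * ε) := by linarith
  have hlast : (N:ℝ) ^ (3 - α - ε) = (N:ℝ) ^ (3 - α - 2 * ε) * (N:ℝ) ^ ε := by
    rw [← Real.rpow_add hN0]
    congr 1
    ring
  have hZ : (0:ℝ) < (N:ℝ) ^ (3 - α - 2 * ε) := Real.rpow_pos_of_pos hN0 _
  rw [hlast] at hlow
  nlinarith [hlow, hup, hmain, hZ, hE]

end Pool.Agent.Results.MP_bb5cc8_nt.HairbrushExponent
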