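import Pool.Agent.H170R2.PC.Asym

/-!
# Covering `[1, N]` by one residue class for each prime near `N^α`, `1/2 < α < 1`

`coveredCount α N a` is the number `S_a(N)` of integers of `[1, N]` in a chosen class modulo some
prime `N^α ≤ p < 2 N^α`, and `LowerExponent α c` says `S_a(N) ≥ N^{c - o(1)}` uniformly in the
choice `a` (definitions in `Pool/Agent/H170R2/PC/Defs.lean`).

The method: for a point `n` in many classes `p`, and another class `q` meeting many of them, the
reciprocals `1/p` modulo `q` lie in a dilate of a short interval; so many pairs of sums of `h`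
reciprocals agree modulo `q`, while the numerator of a nonzero difference has at most `2h - 1`
prime factors of size `N^α`.
-/

namespace Pool.Agent.Results.MP_bb5cc8_nt.ReciprocalEnergy

open Pool.Agent.H170R2.PC

/-- The exponent: the larger of the reciprocal energy exponent with `h` summands and of the
exponent `1 - 5α/11` coming from three term progressions. -/
noncomputable def expo (α : ℝ) (h : ℕ) : ℝ :=
  max (min ((3 - 2 * α - (1 - α) / h) / 2) (2 - 2 * α + (2 * α - 1) / (2 * h))) (1 - 5 * α / 11)

/-- For `1/2 < α < 1` every exponent `expo α h`, `h ≥ 1`, is a valid lower exponent, and one of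
them is larger than both Cauchy–Schwarz exponents `2 - 2α` and `1 - α/2`. -/
theorem result (α : ℝ) (h1 : 1 / 2 < α) (h2 : α < 1) :
    (∀ h : ℕ, 1 ≤ h → LowerExponent α (expo α h)) ∧
    (∃ h : ℕ, 1 ≤ h ∧ 2 - 2 * α < expo α h ∧ 1 - α / 2 < expo α h) := by
  constructor
  · intro h hh
    unfold expo
    rcases max_choice (min ((3 - 2 * α - (1 - α) / h) / 2) (2 - 2 * α + (2 * α - 1) / (2 * h)))
      (1 - 5 * α / 11) with h3 | h3
    · rw [h3]
      exact exp_bush h1 h2 hh
    · rw [h3]
      exact exp_window (by linarith) h2
  · by_cases h3 : α < 2 / 3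
    · -- the bush exponent with a large `h`
      have hd : 0 < 2 * α - 1 := by linarith
      obtain ⟨h, hh⟩ := exists_nat_gt (max 2 ((1 - α) / (2 * α - 1)))
      have hh2 : (2 : ℝ) < h := (le_max_left _ _).trans_lt hh
      have hh3 : (1 - α) / (2 * α - 1) < h := (le_max_right _ _).trans_lt hh
      have hpos : (0 : ℝ) < h := by linarith
      have hh4 : (1 - α) / h < 2 * α - 1 := by
        rw [div_lt_iff₀ hpos]
        rw [div_lt_iff₀ hd] at hh3
        linarith
      have hh5 : (1 - α) / h < 1 - α := by
        rw [div_lt_iff₀ hpos]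
        nlinarith
      have hh6 : 0 < (2 * α - 1) / (2 * h) := by positivity
      refine ⟨h, by exact_mod_cast (by linarith : (1 : ℝ) ≤ h), ?_, ?_⟩
      · exact lt_max_of_lt_left (lt_min (by linarith) (by linarith))
      · exact lt_max_of_lt_left (lt_min (by linarith) (by linarith))
    · exact ⟨1, le_rfl, lt_max_of_lt_right (by linarith), lt_max_of_lt_right (by linarith)⟩

end Pool.Agent.Results.MP_bb5cc8_nt.ReciprocalEnergy
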